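import Pool.Agent.H54.WB.TargetsA

/-!
# Widths bounded by a function of the size: the grid and the vertex cover of a model (row VSM)
-/

set_option autoImplicit false

namespace Pool.Agent.H13.WB

open Pool.Agent.H54.WB
open Pool.Agent.H8.PL (GridF)

theorem card_roles {V : Type} [Finite V] (ro : V → ℕ) (h : ∀ v, ro v ≤ 4) :
    Nat.card V = {v | ro v = 0}.ncard + {v | ro v = 1}.ncard + {v | ro v = 2}.ncard +
      {v | ro v = 3}.ncard + {v | ro v = 4}.ncard := by
  classical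
  have := Fintype.ofFinite V
  have h1 : Nat.card V = ∑ i ∈ Finset.range 5, {v | ro v = i}.ncard := by
    rw [Nat.card_eq_fintype_card, ← Finset.card_univ,
      Finset.card_eq_sum_card_fiberwise (f := ro) (t := Finset.range 5)
        (fun v _ => Finset.mem_coe.2 (Finset.mem_range.2 (Nat.lt_succ_of_le (h v))))]
    refine Finset.sum_congr rfl fun i _ => ?_
    rw [Set.ncard_eq_toFinset_card']
    congr 1
    ext v
    simp
  rw [h1]
  simp [Finset.sum_range_succ]

theorem pf_VSM (hVKY : T_VKY) (hORD : T_ORD) (hGRD : T_GRD) : T_VSM := by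
  intro V Q _ κ U Hh Vv G ro lo ti h
  obtain ⟨X, hX⟩ := hVKY V Q κ U Hh Vv G.Adj ro lo ti h
  obtain ⟨hb, hbX, hbS, hbZ, zb, hzb, hzb'⟩ := hX true
  obtain ⟨hc, hcX, hcS, hcZ, zc, hzc, hzc'⟩ := hX false
  obtain ⟨W, H, t, hW, hH, hlt, hexW, hexH, hcard, hgrid⟩ := hGRD V Q U Hh Vv (fun z => ro z = 4)
    (VSame G.Adj ro lo) (VSuc κ G.Adj ro lo) (VZer G.Adj ro lo) ti X h.grid
    (fun s z w hz hw => (hX s).2.2.1 z w hz hw) (fun s z hz => (hX s).2.2.2.1 z hz)
  obtain ⟨-, -, -, e2⟩ := hORD V G.Adj _ _ (h.chn true)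
  obtain ⟨-, -, -, e3⟩ := hORD V G.Adj _ _ (h.chn false)
  have q0 : cr true = 0 := rfl
  have q1 : cr false = 1 := rfl
  rw [q0] at hb hbX hzb' e2
  rw [q1] at hc hcX hzc' e3
  refine ⟨{v | ro v = 0}.ncard, {v | ro v = 1}.ncard, W, H, t, hW, hH, hb, hc, ?_, ?_, ?_, ?_,
    hgrid, ?_, ?_⟩
  · exact lt_of_le_of_lt hzb' (hlt zb hzb).1
  · obtain ⟨z, hz, hz'⟩ := hexW (W - 1) (by omega)
    have h1 := hbX z hz
    omega
  · exact lt_of_le_of_lt hzc' (hlt zc hzc).2
  · obtain ⟨z, hz, hz'⟩ := hexH (H - 1) (by omega)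
    have h1 := hcX z hz
    omega
  · have h1 := card_roles ro h.rng
    have h2 : {v | ro v = 2}.ncard = {v | ro v = 0}.ncard := e2
    have h3 : {v | ro v = 3}.ncard = {v | ro v = 1}.ncard := e3
    rw [h1, h2, h3]
    have h4 : {v | ro v = 4}.ncard = W * H := hcard
    rw [h4]
    ring
  · refine ⟨{v | ro v = 0} ∪ {v | ro v = 1}, Set.ncard_union_le _ _, fun u v huv => ?_⟩
    have h1 := h.edge u v huv
    rcases h1 with h1 | h1
    · left
      have h2 := h1.1
      rcases Nat.le_one_iff_eq_zero_or_eq_one.1 h2 with h3 | h3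
      · exact Or.inl h3
      · exact Or.inr h3
    · right
      have h2 := h1.1
      rcases Nat.le_one_iff_eq_zero_or_eq_one.1 h2 with h3 | h3
      · exact Or.inl h3
      · exact Or.inr h3

end Pool.Agent.H13.WB
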